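import Pool.Agent.Q292.Eternal.Game

set_option autoImplicit false

/-!
# Checking a table of ranks for the eternal vertex colouring game on `Fin n`
-/

namespace Pool.Agent.Q292.Eternal

variable {n k : ℕ}

/-- digit of a colour -/
def dg (o : Option (Fin k)) : ℕ := match o with
  | none => 0
  | some d => d.val + 1

lemma dg_some (d : Fin k) : dg (some d) = d.val + 1 := rfl

lemma dg_eq (o : Option (Fin k)) (d : Fin k) : dg o = d.val + 1 ↔ o = some d := by
  cases o with
  | none => simp [dg]
  | some e => simp [dg, Fin.ext_iff]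

def admB (nb : Fin n → List (Fin n)) (p : Pos (Fin n) k) (v : Fin n) (d : Fin k) : Bool :=
  !(Nat.beq (dg (p.col v)) (d.val + 1)) && (nb v).all fun w => !(Nat.beq (dg (p.col w)) (d.val + 1))

lemma admB_iff (nb : Fin n → List (Fin n)) (G : SimpleGraph (Fin n))
    (hG : ∀ v w, G.Adj v w ↔ w ∈ nb v) (p : Pos (Fin n) k) (v : Fin n) (d : Fin k) :
    admB nb p v d = true ↔ Adm G p v d := by
  unfold admB Adm
  simp only [Bool.and_eq_true, Bool.not_eq_true', List.all_eq_true, hG]
  have key : ∀ o : Option (Fin k), Nat.beq (dg o) (d.val + 1) = false ↔ o ≠ some d := by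
    intro o
    rw [← Bool.not_eq_true, Nat.beq_eq, dg_eq]
  simp only [key]

def nextB (vs : List (Fin n)) (p : Pos (Fin n) k) (v : Fin n) (d : Fin k) : Pos (Fin n) k where
  col := fun w => bif Nat.beq w.val v.val then some d else p.col w
  chosen := bif vs.all (fun w => Nat.beq w.val v.val || p.chosen w) then fun _ => false
    else fun w => Nat.beq w.val v.val || p.chosen w
  bob := !p.bob

lemma nextB_eq (vs : List (Fin n)) (hvs : ∀ v, v ∈ vs) (p : Pos (Fin n) k) (v : Fin n)
    (d : Fin k) : nextB vs p v d = next p v d := by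
  have hb : ∀ w : Fin n, Nat.beq w.val v.val = decide (w = v) := by
    intro w
    by_cases h : w = v
    · subst h; simp
    · rw [decide_eq_false h, ← Bool.not_eq_true, Nat.beq_eq]
      exact fun h2 => h (Fin.ext h2)
  unfold nextB next
  congr 1
  · funext w
    rw [hb, Function.update_apply]
    by_cases h : w = v <;> simp [h]
  · have h1 : vs.all (fun w => Nat.beq w.val v.val || p.chosen w) = true ↔
        ∀ w, w ≠ v → p.chosen w = true := by
      rw [List.all_eq_true]
      constructor
      · intro h w hw
        have := h w (hvs w)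
        rw [hb, decide_eq_false hw, Bool.false_or] at this
        exact this
      · intro h w _
        rw [hb]
        by_cases hw : w = v
        · simp [hw]
        · simp [hw, h w hw]
    by_cases h : ∀ w, w ≠ v → p.chosen w = true
    · rw [if_pos h, h1.mpr h]
      rfl
    · rw [if_neg h]
      have : vs.all (fun w => Nat.beq w.val v.val || p.chosen w) = false := by
        rw [← Bool.not_eq_true, h1]
        exact h
      rw [this]
      funext w
      show (Nat.beq w.val v.val || p.chosen w) = _
      rw [hb, Function.update_apply]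
      by_cases h : w = v <;> simp [h]

/-- The local conditions for the rank of a position; `vs` lists all vertices, `ds` all colours and
`31` stands for an infinite rank. -/
def okB (nb : Fin n → List (Fin n)) (vs : List (Fin n)) (ds : List (Fin k))
    (rank : Pos (Fin n) k → ℕ) (p : Pos (Fin n) k) : Bool :=
  !(Nat.beq (rank p) 0) &&
  bif p.bob then
    (Nat.beq (rank p) 31 || vs.any fun v => !p.chosen v &&
      ((ds.all fun d => !admB nb p v d) ||
        ds.any fun d => admB nb p v d && Nat.blt (rank (nextB vs p v d)) (rank p))) &&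
    (vs.all fun v => p.chosen v || ((Nat.ble (rank p) 1 || ds.any fun d => admB nb p v d) &&
      ds.all fun d => !admB nb p v d || Nat.ble (rank p) (rank (nextB vs p v d) + 1)))
  else
    (Nat.beq (rank p) 31 || vs.all fun v => p.chosen v ||
      ds.all fun d => !admB nb p v d || Nat.blt (rank (nextB vs p v d)) (rank p)) &&
    (Nat.ble (rank p) 1 || vs.any fun v => !p.chosen v &&
      ds.any fun d => admB nb p v d && Nat.ble (rank p) (rank (nextB vs p v d) + 1))

section Sound

variable (nb : Fin n → List (Fin n)) (G : SimpleGraph (Fin n)) (hG : ∀ v w, G.Adj v w ↔ w ∈ nb v)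
  (vs : List (Fin n)) (hvs : ∀ v, v ∈ vs) (ds : List (Fin k)) (hds : ∀ d, d ∈ ds)
  (rank : Pos (Fin n) k → ℕ)

include hG hvs hds in
lemma okB_iff (p : Pos (Fin n) k) (h : okB nb vs ds rank p = true) :
    rank p ≠ 0 ∧
    (p.bob = true →
      (rank p = 31 ∨ ∃ v, p.chosen v = false ∧ ((∀ d, ¬ Adm G p v d) ∨
        ∃ d, Adm G p v d ∧ rank (next p v d) < rank p)) ∧
      (∀ v, p.chosen v = false → (rank p ≤ 1 ∨ ∃ d, Adm G p v d) ∧
        ∀ d, Adm G p v d → rank p ≤ rank (next p v d) + 1)) ∧
    (p.bob = false →
      (rank p = 31 ∨ ∀ v, p.chosen v = false → ∀ d, Adm G p v d → rank (next p v d) < rank p) ∧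
      (rank p ≤ 1 ∨ ∃ v, p.chosen v = false ∧ ∃ d, Adm G p v d ∧
        rank p ≤ rank (next p v d) + 1)) := by
  unfold okB at h
  rw [Bool.and_eq_true] at h
  obtain ⟨h0, h⟩ := h
  refine ⟨?_, ?_, ?_⟩
  · intro h1
    rw [h1] at h0
    simp at h0
  · intro hb
    rw [hb, cond_true, Bool.and_eq_true] at h
    obtain ⟨h1, h2⟩ := h
    constructor
    · rw [Bool.or_eq_true, Nat.beq_eq] at h1
      rcases h1 with h1 | h1
      · exact Or.inl h1
      · right
        rw [List.any_eq_true] at h1
        obtain ⟨v, _, h1⟩ := h1
        rw [Bool.and_eq_true, Bool.not_eq_true', Bool.or_eq_true] at h1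
        obtain ⟨hv, h1⟩ := h1
        refine ⟨v, hv, ?_⟩
        rcases h1 with h1 | h1
        · left
          intro d hd
          rw [List.all_eq_true] at h1
          have := h1 d (hds d)
          rw [Bool.not_eq_true', ← Bool.not_eq_true, admB_iff nb G hG] at this
          exact this hd
        · right
          rw [List.any_eq_true] at h1
          obtain ⟨d, _, h1⟩ := h1
          rw [Bool.and_eq_true, admB_iff nb G hG, nextB_eq vs hvs, Nat.blt_eq] at h1
          exact ⟨d, h1⟩
    · intro v hv
      rw [List.all_eq_true] at h2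
      have h3 := h2 v (hvs v)
      rw [hv, Bool.false_or, Bool.and_eq_true, Bool.or_eq_true, Nat.ble_eq] at h3
      obtain ⟨h3, h4⟩ := h3
      constructor
      · rcases h3 with h3 | h3
        · exact Or.inl h3
        · right
          rw [List.any_eq_true] at h3
          obtain ⟨d, _, h3⟩ := h3
          exact ⟨d, (admB_iff nb G hG p v d).mp h3⟩
      · intro d hd
        rw [List.all_eq_true] at h4
        have h5 := h4 d (hds d)
        rw [(admB_iff nb G hG p v d).mpr hd, Bool.not_true, Bool.false_or, nextB_eq vs hvs,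
          Nat.ble_eq] at h5
        exact h5
  · intro hb
    rw [hb, cond_false, Bool.and_eq_true] at h
    obtain ⟨h1, h2⟩ := h
    constructor
    · rw [Bool.or_eq_true, Nat.beq_eq] at h1
      rcases h1 with h1 | h1
      · exact Or.inl h1
      · right
        intro v hv d hd
        rw [List.all_eq_true] at h1
        have h3 := h1 v (hvs v)
        rw [hv, Bool.false_or, List.all_eq_true] at h3
        have h5 := h3 d (hds d)
        rw [(admB_iff nb G hG p v d).mpr hd, Bool.not_true, Bool.false_or, nextB_eq vs hvs,
          Nat.blt_eq] at h5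
        exact h5
    · rw [Bool.or_eq_true, Nat.ble_eq] at h2
      rcases h2 with h2 | h2
      · exact Or.inl h2
      · right
        rw [List.any_eq_true] at h2
        obtain ⟨v, _, h2⟩ := h2
        rw [Bool.and_eq_true, Bool.not_eq_true', List.any_eq_true] at h2
        obtain ⟨hv, d, _, h2⟩ := h2
        rw [Bool.and_eq_true, admB_iff nb G hG, nextB_eq vs hvs, Nat.ble_eq] at h2
        exact ⟨v, hv, d, h2⟩

variable (Cons : Pos (Fin n) k → Prop)
  (hnext : ∀ p, Cons p → ∀ v, p.chosen v = false → ∀ d, Adm G p v d → Cons (next p v d))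
  (hok : ∀ p, Cons p → okB nb vs ds rank p = true)

include hG hvs hds hnext hok in
theorem lower (N : ℕ) : ∀ p, Cons p → BobWinsIn G N p → rank p ≤ N := by
  induction N with
  | zero => exact fun p _ h => h.elim
  | succ N ih =>
    intro p hc h
    obtain ⟨h0, h1, h2⟩ := okB_iff nb G hG vs hvs ds hds rank p (hok p hc)
    rcases h with ⟨hb, v, hv, hd | ⟨d, hd, hw⟩⟩ | ⟨hb, hw⟩
    · rcases ((h1 hb).2 v hv).1 with h | ⟨d, h⟩
      · omega
      · exact absurd h (hd d)
    · have h3 := ((h1 hb).2 v hv).2 d hd
      have h4 := ih _ (hnext p hc v hv d hd) hw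
      omega
    · rcases (h2 hb).2 with h | ⟨v, hv, d, hd, h⟩
      · omega
      · have h4 := ih _ (hnext p hc v hv d hd) (hw v hv d hd)
        omega

include hG hvs hds hnext hok in
theorem upper (N : ℕ) : ∀ p, Cons p → rank p ≤ N → N < 31 → BobWinsIn G N p := by
  induction N with
  | zero =>
    intro p hc h _
    obtain ⟨h0, _, _⟩ := okB_iff nb G hG vs hvs ds hds rank p (hok p hc)
    omega
  | succ N ih =>
    intro p hc h hN
    obtain ⟨h0, h1, h2⟩ := okB_iff nb G hG vs hvs ds hds rank p (hok p hc)
    cases hb : p.bob with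
    | true =>
      left
      refine ⟨hb, ?_⟩
      rcases (h1 hb).1 with h3 | ⟨v, hv, h3⟩
      · omega
      · refine ⟨v, hv, ?_⟩
        rcases h3 with h3 | ⟨d, hd, h3⟩
        · exact Or.inl h3
        · exact Or.inr ⟨d, hd, ih _ (hnext p hc v hv d hd) (by omega) (by omega)⟩
    | false =>
      right
      refine ⟨hb, fun v hv d hd => ?_⟩
      rcases (h2 hb).1 with h3 | h3
      · omega
      · have := h3 v hv d hd
        exact ih _ (hnext p hc v hv d hd) (by omega) (by omega)

end Sound

end Pool.Agent.Q292.Eternal
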