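import Pool.Agent.Q292.Eternal.Check

set_option autoImplicit false

/-!
# Tables of ranks for graphs with five vertices
-/

namespace Pool.Agent.Q292.Eternal

variable {k : ℕ}

def sel {α : Type} (c0 c1 c2 c3 c4 : α) : ℕ → α
  | 0 => c0
  | 1 => c1
  | 2 => c2
  | 3 => c3
  | _ => c4

def posOf (c0 c1 c2 c3 c4 : Option (Fin k)) (m : ℕ) (t : Bool) : Pos (Fin 5) k :=
  ⟨fun i => sel c0 c1 c2 c3 c4 i.val, fun i => Nat.testBit m i.val, t⟩

def bit (b : Bool) (x : ℕ) : ℕ := bif b then x else 0

def maskOf (p : Pos (Fin 5) k) : ℕ :=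
  bit (p.chosen 0) 1 + bit (p.chosen 1) 2 + bit (p.chosen 2) 4 + bit (p.chosen 3) 8 +
    bit (p.chosen 4) 16

def rankD (k TA TB : ℕ) (c0 c1 c2 c3 c4 m t : ℕ) : ℕ :=
  bif Nat.beq (c0 * c1 * c2 * c3 * c4) 0 then
    (TB >>> (5 * (c0 + (k + 1) * (c1 + (k + 1) * (c2 + (k + 1) * (c3 + (k + 1) * c4)))))) % 32
  else
    (TA >>> (5 * (((c0 - 1) + k * ((c1 - 1) + k * ((c2 - 1) + k * ((c3 - 1) + k * (c4 - 1))))) * 64
      + 2 * m + t))) % 32

def rankT (TA TB : ℕ) (p : Pos (Fin 5) k) : ℕ :=
  rankD k TA TB (dg (p.col 0)) (dg (p.col 1)) (dg (p.col 2)) (dg (p.col 3)) (dg (p.col 4))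
    (maskOf p) (bit p.bob 1)

def vs5 : List (Fin 5) := [0, 1, 2, 3, 4]

def opts (k : ℕ) : List (Option (Fin k)) := none :: (List.finRange k).map some

def isS (o : Option (Fin k)) : Bool := !(Nat.beq (dg o) 0)

def clash (a b : Option (Fin k)) : Bool := Nat.beq (dg a) (dg b) && !(Nat.beq (dg a) 0)

def cmask (c0 c1 c2 c3 c4 : Option (Fin k)) : ℕ :=
  bit (isS c0) 1 + bit (isS c1) 2 + bit (isS c2) 4 + bit (isS c3) 8 + bit (isS c4) 16

def par (c0 c1 c2 c3 c4 : Option (Fin k)) : Bool :=
  xor (isS c0) (xor (isS c1) (xor (isS c2) (xor (isS c3) (isS c4))))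

/-- the check for one colouring -/
def chk1 (nb : Fin 5 → List (Fin 5)) (ds : List (Fin k)) (TA TB : ℕ)
    (c0 c1 c2 c3 c4 : Option (Fin k)) : Bool :=
  bif (isS c0 && isS c1 && isS c2 && isS c3 && isS c4) then
    (List.range 31).all fun m => okB nb vs5 ds (rankT TA TB) (posOf c0 c1 c2 c3 c4 m true) &&
      okB nb vs5 ds (rankT TA TB) (posOf c0 c1 c2 c3 c4 m false)
  else okB nb vs5 ds (rankT TA TB) (posOf c0 c1 c2 c3 c4 (cmask c0 c1 c2 c3 c4)
    (par c0 c1 c2 c3 c4))

lemma mem_opts (o : Option (Fin k)) : o ∈ opts k := by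
  cases o with
  | none => exact List.mem_cons_self
  | some d => exact List.mem_cons_of_mem _ (List.mem_map_of_mem (List.mem_finRange d))

lemma isS_iff (o : Option (Fin k)) : isS o = true ↔ o ≠ none := by
  cases o with
  | none => simp [isS, dg]
  | some d =>
    have h : Nat.beq (d.val + 1) 0 = false := rfl
    simp [isS, dg, h]

lemma clash_iff (a b : Option (Fin k)) : clash a b = true ↔ a ≠ none ∧ a = b := by
  cases a with
  | none => simp [clash, dg]
  | some d =>
    cases b with
    | none => simp [clash, dg]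
    | some e =>
      have h : Nat.beq (d.val + 1) 0 = false := rfl
      simp [clash, dg, Fin.ext_iff, h]

/-- The positions that can occur. -/
def Cons (G : SimpleGraph (Fin 5)) (p : Pos (Fin 5) k) : Prop :=
  (∀ v w, G.Adj v w → clash (p.col v) (p.col w) = false) ∧
  ((∀ v, isS (p.col v) = true) ∨ ((∀ v, p.chosen v = isS (p.col v)) ∧
    p.bob = par (p.col 0) (p.col 1) (p.col 2) (p.col 3) (p.col 4))) ∧
  ∃ v, p.chosen v = false

lemma cons_start (G : SimpleGraph (Fin 5)) : Cons G (start (Fin 5) k) := by
  refine ⟨fun v w _ => ?_, Or.inr ⟨fun v => rfl, rfl⟩, 0, rfl⟩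
  rw [← Bool.not_eq_true, clash_iff]
  exact fun h => h.1 rfl

lemma cons_next (G : SimpleGraph (Fin 5)) (p : Pos (Fin 5) k) (hp : Cons G p) (v : Fin 5)
    (hv : p.chosen v = false) (d : Fin k) (hd : Adm G p v d) : Cons G (next p v d) := by
  obtain ⟨h1, h2, h3⟩ := hp
  refine ⟨?_, ?_, ?_⟩
  · intro x y hxy
    rw [← Bool.not_eq_true, clash_iff]
    have hne : x ≠ y := hxy.ne
    rintro ⟨hx, hxy'⟩
    show False
    simp only [next, Function.update_apply] at hx hxy'
    by_cases hxv : x = v
    · subst hxv
      rw [if_pos rfl, if_neg (Ne.symm hne)] at hxy'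
      exact hd.2 y hxy hxy'.symm
    · rw [if_neg hxv] at hx hxy'
      by_cases hyv : y = v
      · subst hyv
        rw [if_pos rfl] at hxy'
        exact hd.2 x hxy.symm hxy'
      · rw [if_neg hyv] at hxy'
        have := h1 x y hxy
        rw [← Bool.not_eq_true, clash_iff] at this
        exact this ⟨hx, hxy'⟩
  · by_cases hall : ∀ w, w ≠ v → isS (p.col w) = true
    · left
      intro w
      simp only [next, Function.update_apply]
      by_cases hw : w = v
      · rw [if_pos hw]; rfl
      · rw [if_neg hw]; exact hall w hw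
    · rcases h2 with h2 | ⟨h2, h4⟩
      · exact absurd (fun w _ => h2 w) hall
      · right
        have hall2 : ¬ ∀ w, w ≠ v → p.chosen w = true := by
          intro h
          exact hall fun w hw => by rw [← h2 w]; exact h w hw
        constructor
        · intro w
          simp only [next, if_neg hall2, Function.update_apply]
          by_cases hw : w = v
          · rw [if_pos hw, if_pos hw]; rfl
          · rw [if_neg hw, if_neg hw]; exact h2 w
        · have hvS : isS (p.col v) = false := by rw [← h2 v]; exact hv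
          show (!p.bob) = _
          rw [h4]
          have hs : isS (some d) = true := rfl
          fin_cases v
          · have : isS (p.col 0) = false := hvS
            simp [next, par, this, hs]
          · have : isS (p.col 1) = false := hvS
            simp [next, par, this, hs]
          · have : isS (p.col 2) = false := hvS
            simp [next, par, this, hs]
          · have : isS (p.col 3) = false := hvS
            simp [next, par, this, hs]
          · have : isS (p.col 4) = false := hvS
            simp [next, par, this, hs]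
  · by_cases hall : ∀ w, w ≠ v → p.chosen w = true
    · exact ⟨v, by simp only [next, if_pos hall]⟩
    · push Not at hall
      obtain ⟨w, hw, hw2⟩ := hall
      refine ⟨w, ?_⟩
      have hall2 : ¬ ∀ w, w ≠ v → p.chosen w = true := fun h => hw2 (h w hw)
      simp only [next, if_neg hall2, Function.update_apply, if_neg hw]
      simpa using hw2

lemma testBit_mask : ∀ b0 b1 b2 b3 b4 : Bool, ∀ i : Fin 5,
    Nat.testBit (bit b0 1 + bit b1 2 + bit b2 4 + bit b3 8 + bit b4 16) i.val =
      sel b0 b1 b2 b3 b4 i.val := by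
  decide

lemma mask_lt : ∀ b0 b1 b2 b3 b4 : Bool, (b0 && b1 && b2 && b3 && b4) = false →
    bit b0 1 + bit b1 2 + bit b2 4 + bit b3 8 + bit b4 16 < 31 := by
  decide

lemma sel_fun {α : Type} (f : Fin 5 → α) :
    (fun i : Fin 5 => sel (f 0) (f 1) (f 2) (f 3) (f 4) i.val) = f := by
  funext i
  fin_cases i <;> rfl

lemma ok_of_chk (G : SimpleGraph (Fin 5)) (nb : Fin 5 → List (Fin 5)) (ds : List (Fin k))
    (TA TB : ℕ) (p : Pos (Fin 5) k) (hp : Cons G p)
    (h : chk1 nb ds TA TB (p.col 0) (p.col 1) (p.col 2) (p.col 3) (p.col 4) = true) :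
    okB nb vs5 ds (rankT TA TB) p = true := by
  obtain ⟨h1, h2, h3⟩ := hp
  have hcol : (fun i : Fin 5 => sel (p.col 0) (p.col 1) (p.col 2) (p.col 3) (p.col 4) i.val) =
      p.col := sel_fun p.col
  unfold chk1 at h
  by_cases hall : (isS (p.col 0) && isS (p.col 1) && isS (p.col 2) && isS (p.col 3) &&
      isS (p.col 4)) = true
  · rw [hall, cond_true, List.all_eq_true] at h
    have hpos : posOf (p.col 0) (p.col 1) (p.col 2) (p.col 3) (p.col 4) (maskOf p) p.bob = p := by
      unfold posOf
      rw [hcol]
      have : (fun i : Fin 5 => Nat.testBit (maskOf p) i.val) = p.chosen := by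
        rw [← sel_fun p.chosen]
        funext i
        exact testBit_mask _ _ _ _ _ i
      rw [this]
    have hlt : maskOf p < 31 := by
      apply mask_lt
      rw [← Bool.not_eq_true]
      intro hc
      simp only [Bool.and_eq_true] at hc
      obtain ⟨⟨⟨⟨e0, e1⟩, e2⟩, e3⟩, e4⟩ := hc
      obtain ⟨v, hv⟩ := h3
      fin_cases v
      · exact absurd (hv.symm.trans e0) (by decide)
      · exact absurd (hv.symm.trans e1) (by decide)
      · exact absurd (hv.symm.trans e2) (by decide)
      · exact absurd (hv.symm.trans e3) (by decide)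
      · exact absurd (hv.symm.trans e4) (by decide)
    have h5 := h (maskOf p) (List.mem_range.mpr hlt)
    rw [Bool.and_eq_true] at h5
    cases hb : p.bob with
    | true => rw [hb] at hpos; rw [hpos] at h5; exact h5.1
    | false => rw [hb] at hpos; rw [hpos] at h5; exact h5.2
  · have hpart : (∀ v, p.chosen v = isS (p.col v)) ∧
        p.bob = par (p.col 0) (p.col 1) (p.col 2) (p.col 3) (p.col 4) := by
      rcases h2 with h2 | h2
      · exfalso
        apply hall
        rw [h2 0, h2 1, h2 2, h2 3, h2 4]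
        rfl
      · exact h2
    rw [Bool.not_eq_true] at hall
    rw [hall, cond_false] at h
    have hpos : posOf (p.col 0) (p.col 1) (p.col 2) (p.col 3) (p.col 4)
        (cmask (p.col 0) (p.col 1) (p.col 2) (p.col 3) (p.col 4))
        (par (p.col 0) (p.col 1) (p.col 2) (p.col 3) (p.col 4)) = p := by
      rw [← hpart.2]
      unfold posOf
      rw [hcol]
      have : (fun i : Fin 5 => Nat.testBit (cmask (p.col 0) (p.col 1) (p.col 2) (p.col 3)
          (p.col 4)) i.val) = p.chosen := by
        rw [← sel_fun p.chosen]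
        funext i
        unfold cmask
        rw [← hpart.1, ← hpart.1, ← hpart.1, ← hpart.1, ← hpart.1]
        exact testBit_mask _ _ _ _ _ i
      rw [this]
    rw [hpos] at h
    exact h

lemma mem_vs5 : ∀ v : Fin 5, v ∈ vs5 := by decide

end Pool.Agent.Q292.Eternal
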