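import Mathlib.Combinatorics.SimpleGraph.Basic
import Mathlib.Data.Fintype.Card
import Mathlib.Tactic

set_option autoImplicit false

/-!
# The eternal vertex colouring game
-/

namespace Pool.Agent.Q292.Eternal

/-- A position of the eternal vertex colouring game with colours `Fin k`. -/
structure Pos (V : Type) (k : ℕ) where
  /-- the colour of each vertex; `none` for an uncoloured vertex -/
  col : V → Option (Fin k)
  /-- the vertices that have already been picked in the current round -/
  chosen : V → Bool
  /-- `true` if it is the turn of Bob, `false` if it is the turn of Alice -/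
  bob : Bool

variable {V : Type} {k : ℕ}

/-- The colour `d` is allowed for the vertex `v`: it is not the current colour of `v`, and no
neighbour of `v` has it. -/
def Adm (G : SimpleGraph V) (p : Pos V k) (v : V) (d : Fin k) : Prop :=
  p.col v ≠ some d ∧ ∀ w, G.Adj v w → p.col w ≠ some d

/-- The position after the vertex `v` has been picked and given the colour `d`. If `v` was the last
vertex of the round, then a new round begins, in which no vertex has been picked. -/
def next [DecidableEq V] [Fintype V] (p : Pos V k) (v : V) (d : Fin k) : Pos V k where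
  col := Function.update p.col v (some d)
  chosen := if ∀ w, w ≠ v → p.chosen w = true then fun _ => false
    else Function.update p.chosen v true
  bob := !p.bob

/-- The starting position: all vertices are uncoloured and Alice moves first. -/
def start (V : Type) (k : ℕ) : Pos V k := ⟨fun _ => none, fun _ => false, false⟩

/-- Bob can force his win within `N` turns. On each turn the player to move picks a vertex `v` that
has not been picked in the current round. Bob wins at once if no colour is allowed for `v`. -/
def BobWinsIn [DecidableEq V] [Fintype V] (G : SimpleGraph V) : ℕ → Pos V k → Prop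
  | 0, _ => False
  | N + 1, p =>
      (p.bob = true ∧ ∃ v, p.chosen v = false ∧
        ((∀ d, ¬ Adm G p v d) ∨ ∃ d, Adm G p v d ∧ BobWinsIn G N (next p v d))) ∨
      (p.bob = false ∧ ∀ v, p.chosen v = false → ∀ d, Adm G p v d → BobWinsIn G N (next p v d))

/-- Alice has a strategy with which she never loses: there is a set `W` of positions that contains
the starting position, which Alice can stay in by her own moves and which Bob cannot leave. -/
def AliceWins [DecidableEq V] [Fintype V] (G : SimpleGraph V) (k : ℕ) : Prop :=
  ∃ W : Set (Pos V k), start V k ∈ W ∧ ∀ p ∈ W,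
    (p.bob = false → ∃ v, p.chosen v = false ∧ ∃ d, Adm G p v d ∧ next p v d ∈ W) ∧
    (p.bob = true → ∀ v, p.chosen v = false →
      (∃ d, Adm G p v d) ∧ ∀ d, Adm G p v d → next p v d ∈ W)

/-- The eternal game chromatic number: the least number of colours with which Alice wins. -/
noncomputable def eternalChi [DecidableEq V] [Fintype V] (G : SimpleGraph V) : ℕ :=
  sInf {k | AliceWins G k}

/-- The number `r(G, k)`: the least `r` such that Bob can force his win during one of the rounds
`1, ..., r`, that is, within `r * |V|` turns. -/
noncomputable def rounds [DecidableEq V] [Fintype V] (G : SimpleGraph V) (k : ℕ) : ℕ :=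
  sInf {r | BobWinsIn G (r * Fintype.card V) (start V k)}

variable [DecidableEq V] [Fintype V]

lemma bobWinsIn_mono (G : SimpleGraph V) {N M : ℕ} (h : N ≤ M) (p : Pos V k)
    (hp : BobWinsIn G N p) : BobWinsIn G M p := by
  induction N generalizing M p with
  | zero => exact hp.elim
  | succ N ih =>
    obtain ⟨M, rfl⟩ : ∃ m, M = m + 1 := ⟨M - 1, by omega⟩
    rcases hp with ⟨hb, v, hv, hd | ⟨d, hd, hw⟩⟩ | ⟨hb, hw⟩
    · exact Or.inl ⟨hb, v, hv, Or.inl hd⟩
    · exact Or.inl ⟨hb, v, hv, Or.inr ⟨d, hd, ih (by omega) _ hw⟩⟩
    · exact Or.inr ⟨hb, fun v hv d hd => ih (by omega) _ (hw v hv d hd)⟩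

lemma not_aliceWins (G : SimpleGraph V) {N : ℕ} (h : BobWinsIn G N (start V k)) :
    ¬ AliceWins G k := by
  rintro ⟨W, h0, hW⟩
  have key : ∀ N, ∀ p ∈ W, ¬ BobWinsIn G N p := by
    intro N
    induction N with
    | zero => exact fun p _ h => h
    | succ N ih =>
      rintro p hp (⟨hb, v, hv, hd | ⟨d, hd, hw⟩⟩ | ⟨hb, hw⟩)
      · obtain ⟨d, hd'⟩ := ((hW p hp).2 hb v hv).1
        exact hd d hd'
      · exact ih _ (((hW p hp).2 hb v hv).2 d hd) hw
      · obtain ⟨v, hv, d, hd, hn⟩ := (hW p hp).1 hb
        exact ih _ hn (hw v hv d hd)
  exact key N _ h0 h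

end Pool.Agent.Q292.Eternal
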