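import Pool.Agent.Q292.Eternal.Five
import Pool.Agent.Q292.Eternal.LollyData

set_option autoImplicit false

/-! The checks for the graph consisting of a triangle with a pendant path of length two. -/

namespace Pool.Agent.Q292.Eternal.Lolly

def nb (v : Fin 5) : List (Fin 5) := match v.val with
  | 0 => [3]
  | 1 => [2, 4]
  | 2 => [1, 4]
  | 3 => [0, 4]
  | _ => [1, 2, 3]

def chk (k TA TB : ℕ) (l0 l3 : List (Option (Fin k))) : Bool :=
  l0.all fun c0 => l3.all fun c3 => clash c0 c3 || (opts k).all fun c4 => clash c3 c4 ||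
    (opts k).all fun c1 => clash c1 c4 || (opts k).all fun c2 => clash c1 c2 || clash c2 c4 ||
      chk1 nb (List.finRange k) TA TB c0 c1 c2 c3 c4

theorem t1 : chk 1 TA1 TB1 (opts 1) (opts 1) = true := by decide +kernel
theorem t2 : chk 2 TA2 TB2 (opts 2) (opts 2) = true := by decide +kernel
theorem t3 : chk 3 TA3 TB3 (opts 3) (opts 3) = true := by decide +kernel
theorem t4a : chk 4 TA4 TB4 [none] (opts 4) = true := by decide +kernel
theorem t4b : chk 4 TA4 TB4 [some 0] (opts 4) = true := by decide +kernel
theorem t4c : chk 4 TA4 TB4 [some 1] (opts 4) = true := by decide +kernel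
theorem t4d : chk 4 TA4 TB4 [some 2] (opts 4) = true := by decide +kernel
theorem t4e : chk 4 TA4 TB4 [some 3] (opts 4) = true := by decide +kernel

end Pool.Agent.Q292.Eternal.Lolly
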